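import Pool.Agent.LRG.StmtsC

/-! LRG, row LYO: extension of a homomorphism to an integral extension. -/

set_option autoImplicit false

open Polynomial

namespace Pool.Agent.LRG.H99

/-- Homomorphisms to an algebraically closed field extend to integral extensions. -/
theorem extend_hom {A B E : Type} [CommRing A] [CommRing B] [IsDomain B] [Algebra A B] [Field E]
    [IsAlgClosed E] [Algebra.IsIntegral A B] (hinj : Function.Injective (algebraMap A B))
    (s₀ : A →+* E) : ∃ s : B →+* E, ∀ a, s (algebraMap A B a) = s₀ a := by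
  have hP : (RingHom.ker s₀).IsPrime := RingHom.ker_isPrime s₀
  obtain ⟨Q, hQ, hQP⟩ := Ideal.exists_ideal_over_prime_of_isIntegral_of_isDomain (S := B)
    (RingHom.ker s₀) (by
      intro a ha
      have h0 : a = 0 := by
        apply hinj
        rw [RingHom.mem_ker] at ha
        rw [ha, map_zero]
      rw [h0]
      exact Ideal.zero_mem _)
  have hmem : ∀ a, a ∈ Q.comap (algebraMap A B) → s₀ a = 0 := by
    intro a ha
    rw [hQP] at ha
    exact ha
  have hR : IsDomain (A ⧸ Q.comap (algebraMap A B)) :=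
    (Ideal.Quotient.isDomain_iff_prime _).2 (by rw [hQP]; exact hP)
  have hS : IsDomain (B ⧸ Q) := (Ideal.Quotient.isDomain_iff_prime _).2 hQ
  let : Algebra (A ⧸ Q.comap (algebraMap A B)) E :=
    (Ideal.Quotient.lift (Q.comap (algebraMap A B)) s₀ hmem).toAlgebra
  have hjC : Function.Injective (algebraMap (A ⧸ Q.comap (algebraMap A B)) E) := by
    rw [injective_iff_map_eq_zero]
    intro a ha
    obtain ⟨a, rfl⟩ := Ideal.Quotient.mk_surjective a
    have h1 : s₀ a = 0 := ha
    rw [Ideal.Quotient.eq_zero_iff_mem, hQP]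
    exact h1
  have hjS : Function.Injective (algebraMap (A ⧸ Q.comap (algebraMap A B)) (B ⧸ Q)) :=
    Ideal.algebraMap_quotient_injective
  have t1 : Module.IsTorsionFree (A ⧸ Q.comap (algebraMap A B)) E :=
    Module.isTorsionFree_iff_algebraMap_injective.2 hjC
  have t2 : Module.IsTorsionFree (A ⧸ Q.comap (algebraMap A B)) (B ⧸ Q) :=
    Module.isTorsionFree_iff_algebraMap_injective.2 hjS
  have hint : Algebra.IsIntegral (A ⧸ Q.comap (algebraMap A B)) (B ⧸ Q) := inferInstance
  have halg : Algebra.IsAlgebraic (A ⧸ Q.comap (algebraMap A B)) (B ⧸ Q) := inferInstance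
  let φ : (B ⧸ Q) →ₐ[A ⧸ Q.comap (algebraMap A B)] E := IsAlgClosed.lift
  refine ⟨(φ : (B ⧸ Q) →+* E).comp (Ideal.Quotient.mk Q), fun a => ?_⟩
  have h1 := φ.commutes (Ideal.Quotient.mk _ a)
  exact h1

theorem lyo : CX.LyoStmt := by
  intro Ω _ A B h hint E _ _ f
  let : Algebra A B := (Subring.inclusion h).toAlgebra
  have htow : IsScalarTower A B Ω := IsScalarTower.of_algebraMap_eq fun x => rfl
  have hI : Algebra.IsIntegral A B := by
    constructor
    intro b
    obtain ⟨P, hP, hPb⟩ := hint b b.2
    have h1 : IsIntegral A (algebraMap B Ω b) := ⟨P, hP, hPb⟩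
    exact (isIntegral_algebraMap_iff Subtype.val_injective).1 h1
  exact extend_hom (A := A) (B := B) (Subring.inclusion_injective h) f

end Pool.Agent.LRG.H99
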