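import Pool.Agent.LRG.StmtsE

/-! LRG, row FIV: base five with the digits -2, ..., 2. -/

set_option autoImplicit false

namespace Pool.Agent.LRG.H99

theorem fiv : E.FivStmt := by
  intro N
  induction N with
  | zero =>
    intro δ _ _ k hk
    omega
  | succ N ih =>
    intro δ hδ hs
    have h1 : ∑ k ∈ Finset.range (N + 1), δ k * 5 ^ k =
        5 * ∑ k ∈ Finset.range N, δ (k + 1) * 5 ^ k + δ 0 := by
      rw [Finset.sum_range_succ', pow_zero, mul_one, Finset.mul_sum]
      congr 1
      refine Finset.sum_congr rfl fun k _ => ?_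
      rw [pow_succ]
      ring
    rw [h1] at hs
    have h2 := abs_le.1 (hδ 0 (by omega))
    have h3 : δ 0 = 0 := by omega
    have h4 : ∑ k ∈ Finset.range N, δ (k + 1) * 5 ^ k = 0 := by omega
    have h5 := ih (fun k => δ (k + 1)) (fun k hk => hδ (k + 1) (by omega)) h4
    intro k hk
    rcases k with _ | k
    · exact h3
    · exact h5 k (by omega)

end Pool.Agent.LRG.H99
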